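import Pool.Agent.helper7.PQ.Spec

/-!
# Project pq (MP_ebc808_nt): row CRO
-/

set_option autoImplicit false

open Finset PowerSeries

noncomputable section

namespace Pool.Agent.PQ

open Pool.Agent.EP

theorem CRO_primes (n : ℕ) : ∃ s : Finset ℕ, (∀ q ∈ s, q.Prime ∧ q % 24 = 7) ∧ #s = n := by
  have h := Nat.infinite_setOfPred_prime_and_modEq (q := 24) (a := 7) (by norm_num) (by decide)
  obtain ⟨s, hs, hc⟩ := h.exists_subset_card_eq n
  refine ⟨s, fun q hq => ?_, hc⟩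
  have h1 := hs (Finset.mem_coe.2 hq)
  exact ⟨h1.1, h1.2⟩

theorem CRO_mod8 (s : Finset ℕ) (hs : ∀ q ∈ s, q.Prime ∧ q % 24 = 7) :
    ((∏ q ∈ s, q : ℕ) : ℤ) ≡ (-1) ^ #s [ZMOD 8] := by
  induction s using Finset.induction_on with
  | empty => simp
  | insert a s ha ih =>
    rw [Finset.prod_insert ha, Finset.card_insert_of_notMem ha, pow_succ, mul_comm a, Nat.cast_mul]
    refine (ih (fun q hq => hs q (Finset.mem_insert_of_mem hq))).mul ?_
    have h1 := (hs a (Finset.mem_insert_self a s)).2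
    show (a : ℤ) % 8 = -1 % 8
    omega

theorem CRO_cop (s : Finset ℕ) (hs : ∀ q ∈ s, q.Prime ∧ q % 24 = 7) (m : ℕ)
    (hm : ∀ q : ℕ, q.Prime → q % 24 = 7 → Nat.Coprime q m) : Nat.Coprime (∏ q ∈ s, q) m := by
  apply Nat.Coprime.prod_left
  intro q hq
  exact hm q (hs q hq).1 (hs q hq).2

theorem CRO : CRO_stmt := by
  intro i a
  obtain ⟨s, hs, hcard⟩ := CRO_primes (2 ^ (i + 2) - 3)
  have h4 : 4 ≤ 2 ^ (i + 2) := by
    have : 1 ≤ 2 ^ i := Nat.one_le_two_pow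
    rw [pow_add]
    omega
  have hodd : Odd (#s) := by
    rw [hcard]
    have : 2 ^ (i + 2) = 2 * (2 * 2 ^ i) := by rw [pow_add]; ring
    refine ⟨2 * 2 ^ i - 2, ?_⟩
    have h1 : 1 ≤ 2 ^ i := Nat.one_le_two_pow
    omega
  have hQ8 := CRO_mod8 s hs
  rw [hodd.neg_one_pow] at hQ8
  have hQ2 : Nat.Coprime (∏ q ∈ s, q) (2 ^ (2 * (i + 2) + 1)) := by
    apply CRO_cop s hs
    intro q hq h24
    apply Nat.Coprime.pow_right
    rw [Nat.coprime_two_right]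
    rw [Nat.odd_iff]
    omega
  have hQ3 : Nat.Coprime (∏ q ∈ s, q) 3 := by
    apply CRO_cop s hs
    intro q hq h24
    rw [Nat.coprime_comm, Nat.Prime.coprime_iff_not_dvd Nat.prime_three]
    omega
  have hQpos : 0 < ∏ q ∈ s, q := Finset.prod_pos (fun q hq => (hs q hq).1.pos)
  have hdvd : ∀ q ∈ s, q ∣ ∏ q ∈ s, q := fun q hq => Finset.dvd_prod_of_mem (fun q => q) hq
  have hcop3 : Nat.Coprime 3 (2 ^ (2 * (i + 2) + 1)) := Nat.Coprime.pow_right _ (by norm_num)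
  have h8dvd : (8 : ℕ) ∣ 2 ^ (2 * (i + 2) + 1) := by
    have : (8 : ℕ) = 2 ^ 3 := by norm_num
    rw [this]
    exact pow_dvd_pow _ (by omega)
  generalize hB : 2 ^ (2 * (i + 2) + 1) = B at *
  generalize hQd : (∏ q ∈ s, q) = Q at *
  have hBpos : 0 < B := by
    rw [← hB]
    positivity
  -- the class of `P`
  obtain ⟨c₁, hc1, hc2⟩ := Nat.chineseRemainder (Nat.Coprime.mul_right hcop3 hQ3.symm) 1 (B * Q - 1)
  -- the class of `P'`
  obtain ⟨e, -, he⟩ := Nat.exists_mul_mod_eq_of_coprime (1 + 24 * a * (B - 1)) hQ2 hBpos.ne'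
  obtain ⟨c₂, hc3, hc4⟩ := Nat.chineseRemainder hcop3 1 e
  have hBQ : 0 < B * Q := Nat.mul_pos hBpos hQpos
  have hc2' : (c₁ : ℤ) ≡ -1 [ZMOD ((B * Q : ℕ) : ℤ)] := by
    have h1 := Int.natCast_modEq_iff.2 hc2
    refine h1.trans ?_
    rw [Nat.cast_sub hBQ, Int.modEq_iff_dvd]
    exact ⟨-1, by push_cast; ring⟩
  have he' : (Q : ℤ) * e ≡ 1 - 24 * a [ZMOD (B : ℤ)] := by
    have h1 : Q * e ≡ 1 + 24 * a * (B - 1) [MOD B] := he
    have h2 := Int.natCast_modEq_iff.2 h1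
    rw [Nat.cast_mul] at h2
    refine h2.trans ?_
    rw [Nat.cast_add, Nat.cast_mul, Nat.cast_sub hBpos, Int.modEq_iff_dvd]
    exact ⟨-(24 * a), by push_cast; ring⟩
  refine ⟨s, 3 * (B * Q), c₁, 3 * B, c₂, hs, ?_, ?_, ?_, ?_, ?_, ?_⟩
  · rw [hcard]
    omega
  · exact Nat.mul_pos (by norm_num) hBQ
  · exact Nat.mul_pos (by norm_num) hBpos
  · apply Nat.Coprime.mul_right
    · have : Nat.gcd c₁ 3 = Nat.gcd 1 3 := Nat.ModEq.gcd_eq hc1
      rw [Nat.Coprime, this]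
      rfl
    · rw [← Nat.isCoprime_iff_coprime]
      obtain ⟨k, hk⟩ := hc2'.dvd
      exact ⟨-1, -k, by linear_combination hk⟩
  · apply Nat.Coprime.mul_right
    · have : Nat.gcd c₂ 3 = Nat.gcd 1 3 := Nat.ModEq.gcd_eq hc3
      rw [Nat.Coprime, this]
      rfl
    · have h1 : Nat.Coprime e B := by
        have h2 : Nat.Coprime (Q * e) B := by
          rw [← Nat.isCoprime_iff_coprime]
          have h3 : IsCoprime (1 - 24 * (a : ℤ)) (B : ℤ) := by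
            rw [← hB]
            push_cast
            apply IsCoprime.pow_right
            exact ⟨1, 12 * a, by ring⟩
          obtain ⟨k, hk⟩ := he'.dvd
          obtain ⟨x, y, hxy⟩ := h3
          refine ⟨x, y + x * k, ?_⟩
          push_cast
          linear_combination hxy - x * hk
        exact Nat.Coprime.coprime_mul_left h2
      have h4 : Nat.gcd c₂ B = Nat.gcd e B := Nat.ModEq.gcd_eq hc4
      rw [Nat.Coprime, h4]
      exact h1
  · intro P P' hP hP'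
    have hP1 : P ≡ 1 [MOD 3] := by
      have h1 : P ≡ c₁ [MOD 3 * (B * Q)] := hP
      exact (h1.of_mul_right (B * Q)).trans hc1
    have hP2 : (P : ℤ) ≡ -1 [ZMOD ((B * Q : ℕ) : ℤ)] := by
      have h1 : P ≡ c₁ [MOD 3 * (B * Q)] := hP
      exact (Int.natCast_modEq_iff.2 (h1.of_mul_left 3)).trans hc2'
    have hP3 : P' ≡ 1 [MOD 3] := by
      have h1 : P' ≡ c₂ [MOD 3 * B] := hP'
      exact (h1.of_mul_right B).trans hc3
    have hP4 : (P' : ℤ) ≡ e [ZMOD (B : ℤ)] := by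
      have h1 : P' ≡ c₂ [MOD 3 * B] := hP'
      exact Int.natCast_modEq_iff.2 ((h1.of_mul_left 3).trans hc4)
    have hP2B : (P : ℤ) ≡ -1 [ZMOD (B : ℤ)] := hP2.of_dvd (by push_cast; exact dvd_mul_right _ _)
    have hQP' : (Q : ℤ) * P' ≡ 1 - 24 * a [ZMOD (B : ℤ)] := (hP4.mul_left Q).trans he'
    have h8B : (8 : ℤ) ∣ (B : ℤ) := by exact_mod_cast h8dvd
    have hP8 : (P : ℤ) ≡ -1 [ZMOD 8] := hP2B.of_dvd h8B
    have hQP8 : (Q : ℤ) * P' ≡ 1 - 24 * a [ZMOD 8] := hQP'.of_dvd h8B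
    have hP'8 : (P' : ℤ) ≡ -1 [ZMOD 8] := by
      have h1 : (-1 : ℤ) * P' ≡ 1 - 24 * a [ZMOD 8] := (hQ8.symm.mul_right _).trans hQP8
      have h2 : (8 : ℤ) ∣ (1 - 24 * a) - (-1) * P' := h1.dvd
      rw [Int.modEq_iff_dvd]
      omega
    refine ⟨?_, ?_, ?_, ?_⟩
    · have h1 : P % 3 = 1 := hP1
      have h2 : (P : ℤ) % 8 = -1 % 8 := hP8
      omega
    · have h1 : P' % 3 = 1 := hP3
      have h2 : (P' : ℤ) % 8 = -1 % 8 := hP'8
      omega
    · intro q hq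
      have h1 : ((B * Q : ℕ) : ℤ) ∣ -1 - P := hP2.dvd
      have h2 : ((B * Q : ℕ) : ℤ) ∣ ((P + 1 : ℕ) : ℤ) := by
        have h3 : ((P + 1 : ℕ) : ℤ) = -(-1 - P) := by push_cast; ring
        rw [h3, dvd_neg]
        exact h1
      have h4 : B * Q ∣ P + 1 := Int.natCast_dvd_natCast.1 h2
      exact ((hdvd q hq).trans (Nat.dvd_mul_left Q B)).trans h4
    · have h1 : (P : ℤ) * (Q * P') + 1 ≡ -1 * (1 - 24 * a) + 1 [ZMOD (B : ℤ)] :=
        (hP2B.mul hQP').add_right 1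
      have h2 : (-1 : ℤ) * (1 - 24 * a) + 1 = 24 * a := by ring
      rw [h2] at h1
      have h3 : ((1 * P * (Q * P') + 1 : ℕ) : ℤ) ≡ ((24 * a : ℕ) : ℤ) [ZMOD (B : ℤ)] := by
        push_cast
        rw [one_mul]
        exact h1
      rw [hQd]
      exact Int.natCast_modEq_iff.1 h3

end Pool.Agent.PQ
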